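import Pool.Agent.Lib.MP_a773c0_ag.Build
import Pool.Agent.Lib.MP_a773c0_ag.General
import Pool.Agent.Lib.MP_a773c0_ag.Small1
import Pool.Agent.Lib.MP_a773c0_ag.Small3
import Pool.Agent.Lib.MP_a773c0_ag.Small4

/-!
The least degree `d(n,t)` of the last syzygy module of a monomial level algebra in `n` variables
of type `t` failing the weak Lefschetz property, over a field of characteristic zero.
-/

namespace Pool.Agent.Results.MP_a773c0_ag.LeastDegree

open MvPolynomial Finset Pool.Agent.MP_a773c0_ag

/-- The value of `d(n,t)` for `n ≥ 3`, `t ≥ 2`, `(n,t) ≠ (3,2)`: it is `n + e`, where `e = 6` for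
`t = 2`, `e = 4` for `t = 3`, `e = 5` for `(n,t) = (3,4)`, and otherwise `e` is the least natural
number such that the number of monomials of degree `e` in `n` variables is at least
`t + 2n - 2`. -/
noncomputable def leastDegree (n t : ℕ) : ℕ :=
  n + (if t = 2 then 6 else if t = 3 then 4 else if n = 3 ∧ t = 4 then 5 else
    sInf {e : ℕ | t + 2 * n ≤ (n + e - 1).choose e + 2})

theorem choose_succ_ge {n e : ℕ} (hn : 2 ≤ n) :
    (n + e - 1).choose e + 1 ≤ (n + (e + 1) - 1).choose (e + 1) := by
  obtain ⟨m, rfl⟩ : ∃ m, n = m + 2 := ⟨n - 2, by omega⟩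
  have h1 : m + 2 + e - 1 = m + e + 1 := by omega
  have h2 : m + 2 + (e + 1) - 1 = (m + e + 1) + 1 := by omega
  have h3 : 0 < (m + e + 1).choose (e + 1) := Nat.choose_pos (by omega)
  have h4 : (m + e + 1 + 1).choose (e + 1) = (m + e + 1).choose e + (m + e + 1).choose (e + 1) :=
    Nat.choose_succ_succ' _ _
  rw [h1, h2, h4]
  omega

theorem choose_growth {n e₀ c : ℕ} (hn : 2 ≤ n) (h : e₀ + c ≤ (n + e₀ - 1).choose e₀) {e : ℕ}
    (he : e₀ ≤ e) : e + c ≤ (n + e - 1).choose e := by
  induction e, he using Nat.le_induction with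
  | base => exact h
  | succ e he ih =>
    have := choose_succ_ge (e := e) hn
    omega

theorem choose_two_ge {n : ℕ} (hn : 4 ≤ n) : 2 + 2 * n ≤ (n + 2 - 1).choose 2 := by
  induction n, hn using Nat.le_induction with
  | base => decide
  | succ n hn ih =>
    have h1 : n + 1 + 2 - 1 = (n + 1) + 1 := by omega
    have h2 : n + 2 - 1 = n + 1 := by omega
    have h3 : (n + 1 + 1).choose 2 = (n + 1).choose 1 + (n + 1).choose 2 :=
      Nat.choose_succ_succ' _ _
    rw [Nat.choose_one_right] at h3
    rw [h2] at ih
    rw [h1, h3]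
    omega

theorem enough_socle {n t e : ℕ} (hn : 3 ≤ n) (ht : 4 ≤ t) (h34 : ¬ (n = 3 ∧ t = 4)) (he : 3 ≤ e)
    (h : ¬ (t + 2 * n ≤ (n + (e - 1) - 1).choose (e - 1) + 2)) : e + 2 ≤ t := by
  rcases Nat.lt_or_ge 3 n with hn4 | hn3
  · have h1 := choose_growth (c := 2 * n) (by omega) (choose_two_ge hn4) (e := e - 1) (by omega)
    omega
  · have hn' : n = 3 := by omega
    subst hn'
    rcases Nat.lt_or_ge 3 e with he4 | he3
    · have h1 := choose_growth (n := 3) (e₀ := 3) (c := 6) (by omega) (by decide) (e := e - 1)
        (by omega)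
      omega
    · have : t ≠ 4 := fun h => h34 ⟨rfl, h⟩
      omega

theorem degrees_embSet {k n e : ℕ} (hk : k ≤ n) (T' : List (Fin k → ℕ))
    (h : ∀ v ∈ T', ∑ i, v i = e) : ∀ τ ∈ embSet n T', deg τ = e := by
  intro τ hτ
  obtain ⟨v, hv, rfl⟩ := (mem_embSet T' τ).mp hτ
  rw [deg_emb hk]
  exact h v hv

/-- The least degree of the last syzygy module of monomial level algebras in `n` variables of
type `t` failing the weak Lefschetz property. -/
theorem result {K : Type*} [Field K] [CharZero K] (n t : ℕ) (hn : 3 ≤ n) (ht : 2 ≤ t)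
    (hnt : ¬ (n = 3 ∧ t = 2)) :
    IsLeast {d : ℕ | ∃ I : Ideal (MvPolynomial (Fin n) K), IsMonomialIdeal I ∧
      IsArtinianRing (MvPolynomial (Fin n) K ⧸ I) ∧ IsLevel I d t ∧ ¬ HasWLP I}
      (leastDegree n t) := by
  constructor
  · show ∃ I : Ideal (MvPolynomial (Fin n) K), IsMonomialIdeal I ∧
      IsArtinianRing (MvPolynomial (Fin n) K ⧸ I) ∧ IsLevel I (leastDegree n t) t ∧ ¬ HasWLP I
    unfold leastDegree
    split_ifs with h2 h3 h34
    · subst h2
      have hn4 : 4 ≤ n := by
        rcases Nat.lt_or_ge 3 n with h | h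
        · exact h
        · exact absurd ⟨by omega, rfl⟩ hnt
      have hdeg := degrees_embSet (e := 6) hn4 T2 (by decide)
      have hI := exists_ideal (K := K) hdeg (failsAt_T2 hn4)
      rw [card_embSet hn4 T2 (by decide)] at hI
      exact hI
    · subst h3
      have hdeg := degrees_embSet (e := 4) hn T3 (by decide)
      have hI := exists_ideal (K := K) hdeg (failsAt_T3 hn)
      rw [card_embSet hn T3 (by decide)] at hI
      exact hI
    · obtain ⟨rfl, rfl⟩ := h34
      have hdeg := degrees_embSet (e := 5) hn T34 (by decide)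
      have hI := exists_ideal (K := K) hdeg (failsAt_T34 hn)
      rw [card_embSet hn T34 (by decide)] at hI
      exact hI
    · have ht4 : 4 ≤ t := by omega
      have hne : {e : ℕ | t + 2 * n ≤ (n + e - 1).choose e + 2}.Nonempty := by
        refine ⟨t + 2 * n, ?_⟩
        have h1 := choose_growth (n := n) (e₀ := 0) (c := 0) (by omega) (by simp)
          (e := t + 2 * n) (by omega)
        show t + 2 * n ≤ _
        omega
      have hmem := Nat.sInf_mem hne
      have hmin : ∀ e', e' < sInf {e : ℕ | t + 2 * n ≤ (n + e - 1).choose e + 2} →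
          ¬ (t + 2 * n ≤ (n + e' - 1).choose e' + 2) := fun e' he' =>
        Nat.notMem_of_lt_sInf (s := {e : ℕ | t + 2 * n ≤ (n + e - 1).choose e + 2}) he'
      generalize sInf {e : ℕ | t + 2 * n ≤ (n + e - 1).choose e + 2} = e at hmem hmin ⊢
      change t + 2 * n ≤ (n + e - 1).choose e + 2 at hmem
      have hexT : ∃ T : Finset (Fin n →₀ ℕ), (∀ τ ∈ T, deg τ = e) ∧ T.card = t ∧
          FailsAt K T (e - 1) := by
        rcases Nat.lt_or_ge 2 e with he | he
        · exact exists_T_ge_three hn he (enough_socle hn ht4 h34 he (hmin (e - 1) (by omega)))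
            hmem
        · interval_cases e
          · simp at hmem
            omega
          · simp at hmem
            omega
          · rcases Nat.lt_or_ge 3 n with hn4 | hn3
            · exact exists_T_two hn4 ht4 hmem
            · have hn' : n = 3 := by omega
              subst hn'
              have : (3 + 2 - 1).choose 2 = 6 := by decide
              omega
      obtain ⟨T, hT, hTc, hTf⟩ := hexT
      have hI := exists_ideal (K := K) hT hTf
      rw [hTc] at hI
      exact hI
  · rintro d ⟨I, hI, hA, hL, hW⟩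
    obtain ⟨e, T, rfl, hTc, h⟩ := exists_levelData hI hA hL
    have hcard : t + 2 * n ≤ (n + e - 1).choose e + 2 := by
      by_contra hlt
      exact hW (hasWLP_of_card h (by rw [hTc]; omega))
    have he1 : 1 < e := by
      by_contra hle
      have : e = 0 ∨ e = 1 := by omega
      rcases this with rfl | rfl
      · simp at hcard
        omega
      · simp at hcard
        omega
    unfold leastDegree
    split_ifs with h2 h3 h34
    · subst h2
      by_contra hlt
      have he : e = 2 ∨ e = 3 ∨ e = 4 ∨ e = 5 := by omega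
      rcases he with rfl | rfl | rfl | rfl
      · exact hW (hasWLP_two h (by omega))
      · exact hW (hasWLP_three h (by omega))
      · exact hW (hasWLP_four h hTc)
      · exact hW (hasWLP_five h hTc)
    · subst h3
      by_contra hlt
      have he : e = 2 ∨ e = 3 := by omega
      rcases he with rfl | rfl
      · exact hW (hasWLP_two h (by omega))
      · exact hW (hasWLP_three h (by omega))
    · obtain ⟨rfl, rfl⟩ := h34
      by_contra hlt
      have he : e = 2 ∨ e = 3 ∨ e = 4 := by omega
      rcases he with rfl | rfl | rfl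
      · have : (3 + 2 - 1).choose 2 = 6 := by decide
        omega
      · exact hW (hasWLP_34_three h hTc)
      · exact hW (hasWLP_34_four h hTc)
    · have hmem : e ∈ {e : ℕ | t + 2 * n ≤ (n + e - 1).choose e + 2} := hcard
      exact Nat.add_le_add_left (Nat.sInf_le hmem) n

end Pool.Agent.Results.MP_a773c0_ag.LeastDegree
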